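import Pool.Agent.Helper1_RL.Stmts

/-!
# RLA module CORE (MP_62da59_gt): the core functions
-/

noncomputable section

open scoped ContDiff Topology
set_option maxSynthPendingDepth 3
open Set Metric

namespace Pool.Agent.RLim.H20

open Pool.Agent.RLim

/-- the step function -/
def Ph (R : ℝ) : ℝ := Real.smoothTransition (R - 1)

theorem Ph_smooth : ContDiff ℝ ∞ Ph :=
  Real.smoothTransition.contDiff.comp (contDiff_id.sub contDiff_const)

theorem Ph_diff : Differentiable ℝ Ph := Ph_smooth.differentiable (by simp)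

theorem Ph_cont : Continuous Ph := Ph_smooth.continuous

theorem Ph_nonneg (R : ℝ) : 0 ≤ Ph R := Real.smoothTransition.nonneg _

theorem Ph_le (R : ℝ) : Ph R ≤ 1 := Real.smoothTransition.le_one _

theorem Ph_zero {R : ℝ} (h : R ≤ 1) : Ph R = 0 :=
  Real.smoothTransition.zero_of_nonpos (by linarith)

theorem Ph_one {R : ℝ} (h : 2 ≤ R) : Ph R = 1 :=
  Real.smoothTransition.one_of_one_le (by linarith)

theorem Ph_mono : Monotone Ph := fun x y h =>
  Real.smoothTransition.monotone (by linarith)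

theorem dPh_nonneg (R : ℝ) : 0 ≤ deriv Ph R := Ph_mono.deriv_nonneg

theorem dPh_zero {R : ℝ} (h : R ≤ 1) : deriv Ph R = 0 := by
  apply IsLocalMin.deriv_eq_zero
  filter_upwards with x
  rw [Ph_zero h]
  exact Ph_nonneg x

theorem dPh_one {R : ℝ} (h : 2 ≤ R) : deriv Ph R = 0 := by
  apply IsLocalMax.deriv_eq_zero
  filter_upwards with x
  rw [Ph_one h]
  exact Ph_le x

theorem dPh_cont : Continuous (deriv Ph) := Ph_smooth.continuous_deriv (by simp)

theorem dPh_bound : ∃ M : ℝ, 0 ≤ M ∧ ∀ R, deriv Ph R ≤ M := by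
  obtain ⟨M, hM⟩ := (isCompact_Icc (a := (1 : ℝ)) (b := 2)).bddAbove_image
    dPh_cont.continuousOn
  refine ⟨max M 0, le_max_right _ _, fun R => ?_⟩
  by_cases h1 : R ≤ 1
  · rw [dPh_zero h1]
    exact le_max_right _ _
  by_cases h2 : 2 ≤ R
  · rw [dPh_one h2]
    exact le_max_right _ _
  · exact le_trans (hM ⟨R, ⟨by linarith, by linarith⟩, rfl⟩) (le_max_left _ _)

/-- the width function -/
def BB (R : ℝ) : ℝ := 2 + ∫ x in (2 : ℝ)..R, Ph x

theorem BB_hasDeriv (R : ℝ) : HasDerivAt BB (Ph R) R := by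
  have := intervalIntegral.integral_hasDerivAt_right (a := (2 : ℝ)) (b := R) (f := Ph)
    (Ph_cont.intervalIntegrable _ _) (Ph_cont.stronglyMeasurableAtFilter _ _)
    Ph_cont.continuousAt
  exact this.const_add 2

theorem BB_deriv : deriv BB = Ph := funext fun R => (BB_hasDeriv R).deriv

theorem BB_smooth : ContDiff ℝ ∞ BB := by
  rw [contDiff_infty_iff_deriv]
  exact ⟨fun R => (BB_hasDeriv R).differentiableAt, by rw [BB_deriv]; exact Ph_smooth⟩

theorem BB_mono : Monotone BB :=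
  monotone_of_deriv_nonneg (fun R => (BB_hasDeriv R).differentiableAt)
    (fun R => by rw [BB_deriv]; exact Ph_nonneg R)

theorem BB_two : BB 2 = 2 := by simp [BB]

theorem BB_sub_anti : Antitone (fun R => BB R - R) :=
  antitone_of_deriv_nonpos
    (fun R => (((BB_hasDeriv R).sub (hasDerivAt_id R)).differentiableAt))
    (fun R => by
      have h : HasDerivAt (fun R => BB R - R) (Ph R - 1) R :=
        (BB_hasDeriv R).sub (hasDerivAt_id R)
      rw [h.deriv]
      linarith [Ph_le R])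

theorem BB_eq {R : ℝ} (h : 2 ≤ R) : BB R = R := by
  have h1 : ∫ x in (2 : ℝ)..R, Ph x = ∫ x in (2 : ℝ)..R, (1 : ℝ) := by
    apply intervalIntegral.integral_congr
    intro x hx
    rw [uIcc_of_le h] at hx
    exact Ph_one hx.1
  unfold BB
  rw [h1]
  simp

theorem BB_const {R : ℝ} (h : R ≤ 1) : BB R = BB 1 := by
  have h1 : ∫ x in (1 : ℝ)..R, Ph x = ∫ x in (1 : ℝ)..R, (0 : ℝ) := by
    apply intervalIntegral.integral_congr
    intro x hx
    rw [uIcc_of_ge h] at hx
    exact Ph_zero hx.2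
  have h2 := intervalIntegral.integral_add_adjacent_intervals
    (Ph_cont.intervalIntegrable (μ := MeasureTheory.volume) 2 1)
    (Ph_cont.intervalIntegrable (μ := MeasureTheory.volume) 1 R)
  unfold BB
  rw [← h2, h1]
  simp

theorem BB_ge (R : ℝ) : R ≤ BB R := by
  by_cases h : 2 ≤ R
  · rw [BB_eq h]
  · have := BB_sub_anti (le_of_lt (not_le.mp h))
    simp only [BB_two] at this
    linarith

theorem BB_le {R : ℝ} (h : R ≤ 2) : BB R ≤ 2 := by
  have := BB_mono h
  rwa [BB_two] at this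

theorem BB_one_le (R : ℝ) : BB 1 ≤ BB R := by
  by_cases h : R ≤ 1
  · rw [BB_const h]
  · exact BB_mono (le_of_lt (not_le.mp h))

/-- the first factor of `F` -/
def f0 (a R : ℝ) : ℝ := 1 - (1 - a) * Real.smoothTransition (4 * R - 1)

theorem f0_smooth (a : ℝ) : ContDiff ℝ ∞ (f0 a) :=
  contDiff_const.sub (contDiff_const.mul (Real.smoothTransition.contDiff.comp
    ((contDiff_const.mul contDiff_id).sub contDiff_const)))

theorem f0_anti {a : ℝ} (ha : a ≤ 1) : Antitone (f0 a) := fun x y h => by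
  have := Real.smoothTransition.monotone (show 4 * x - 1 ≤ 4 * y - 1 by linarith)
  unfold f0
  nlinarith

theorem f0_le {a : ℝ} (ha : a ≤ 1) (R : ℝ) : f0 a R ≤ 1 := by
  have := Real.smoothTransition.nonneg (4 * R - 1)
  unfold f0
  nlinarith

theorem f0_ge {a : ℝ} (ha : a ≤ 1) (R : ℝ) : a ≤ f0 a R := by
  have := Real.smoothTransition.le_one (4 * R - 1)
  unfold f0
  nlinarith

theorem f0_one (a : ℝ) {R : ℝ} (h : R ≤ 1 / 4) : f0 a R = 1 := by
  unfold f0
  rw [Real.smoothTransition.zero_of_nonpos (by linarith)]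
  ring

theorem f0_eq (a : ℝ) {R : ℝ} (h : 1 / 2 ≤ R) : f0 a R = a := by
  unfold f0
  rw [Real.smoothTransition.one_of_one_le (by linarith)]
  ring

theorem df0_nonpos {a : ℝ} (ha : a ≤ 1) (R : ℝ) : deriv (f0 a) R ≤ 0 := by
  have h := (f0_anti ha).neg.deriv_nonneg (x := R)
  rw [show (fun x => -f0 a x) = -(f0 a) from rfl] at *
  have h2 : deriv (-(f0 a)) R = -deriv (f0 a) R := deriv.neg
  linarith [h2 ▸ h]

theorem df0_zero {a : ℝ} (ha : a ≤ 1) {R : ℝ} (h : 1 / 2 ≤ R) : deriv (f0 a) R = 0 := by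
  apply IsLocalMin.deriv_eq_zero
  filter_upwards with x
  rw [f0_eq a h]
  exact f0_ge ha x

/-- the function `F` -/
def FF (a R : ℝ) : ℝ := f0 a R * Real.exp (-4 * Ph R)

theorem FF_smooth (a : ℝ) : ContDiff ℝ ∞ (FF a) :=
  (f0_smooth a).mul (Real.contDiff_exp.comp (contDiff_const.mul Ph_smooth))

theorem FF_deriv (a R : ℝ) : deriv (FF a) R =
    deriv (f0 a) R * Real.exp (-4 * Ph R) - 4 * deriv Ph R * FF a R := by
  have h1 : HasDerivAt (f0 a) (deriv (f0 a) R) R :=
    ((f0_smooth a).differentiable (by simp) R).hasDerivAt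
  have h2 : HasDerivAt Ph (deriv Ph R) R := (Ph_diff R).hasDerivAt
  have h3 := h1.mul ((h2.const_mul (-4)).exp)
  have h4 : HasDerivAt (FF a) _ R := h3
  rw [h4.deriv]
  unfold FF
  ring

/-- the inequality for `ucC` -/
theorem algC {R B : ℝ} (hR : 0 < R) (hB : R ≤ B) : 2 / B ^ 2 ≤ 4 / B ^ 2 - 2 * R ^ 2 / B ^ 4 := by
  have hB0 : 0 < B := lt_of_lt_of_le hR hB
  have h1 : 2 * R ^ 2 / B ^ 4 ≤ 2 / B ^ 2 := by
    rw [div_le_div_iff₀ (by positivity) (by positivity)]
    have : R ^ 2 ≤ B ^ 2 := by nlinarith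
    nlinarith [mul_le_mul_of_nonneg_right this (show 0 ≤ B ^ 2 by positivity)]
  have h2 : 4 / B ^ 2 = 2 / B ^ 2 + 2 / B ^ 2 := by ring
  linarith

theorem alg2A {F P d R B : ℝ} (hF : 0 < F) (hP : 0 ≤ P) (hd : 0 ≤ d)
    (hR : 1 ≤ R) (hB : R ≤ B) :
    0 ≤ -(-(4 * d * F)) / 2 / R - 2 * (F * d + -(4 * d * F) * P / 2) / B := by
  have hR0 : 0 < R := by linarith
  have hB0 : 0 < B := by linarith
  have e : -(-(4 * d * F)) / 2 / R - 2 * (F * d + -(4 * d * F) * P / 2) / B =
      2 * (d * F) * ((B - R) + 2 * P * R) / (R * B) := by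
    field_simp
    ring
  rw [e]
  have : 0 ≤ (B - R) + 2 * P * R := by
    have := mul_nonneg hP hR0.le
    linarith
  positivity

theorem alg2B {F P d R B a : ℝ} (hF : 0 < F) (hFa : F ≤ a) (ha : a ≤ 1 / 16)
    (hP1 : P ≤ 1) (hd : 0 ≤ d) (hR : 1 ≤ R) (hB : R ≤ B) (hB2 : B ≤ 2) :
    0 ≤ -(-(4 * d * F)) / 2 / R - 2 * F * P / (R * B) + 2 * R ^ 2 / B ^ 4 := by
  have hR0 : 0 < R := by linarith
  have hB0 : 0 < B := by linarith
  have h1 : 0 ≤ -(-(4 * d * F)) / 2 / R := by
    have : 0 ≤ 4 * d * F := by positivity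
    apply div_nonneg _ hR0.le
    linarith
  have h2 : 1 / 8 ≤ 2 * R ^ 2 / B ^ 4 := by
    rw [div_le_div_iff₀ (by norm_num) (by positivity)]
    have h3 : B ^ 2 ≤ 4 := by nlinarith
    have h4 : B ^ 4 ≤ 16 := by nlinarith [sq_nonneg (B ^ 2)]
    have h5 : 1 ≤ R ^ 2 := by nlinarith
    linarith
  have h3 : 2 * F * P / (R * B) ≤ 1 / 8 := by
    rw [div_le_div_iff₀ (by positivity) (by norm_num)]
    have h5 : F * P ≤ 1 / 16 := by nlinarith
    have h6 : 1 ≤ R * B := by nlinarith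
    linarith
  linarith

theorem alg2C {F P d R B a M : ℝ} (hF : 0 < F) (hFa : F ≤ a) (haM : a * (M + 2) ≤ 1 / 2)
    (hP : 0 ≤ P) (hP1 : P ≤ 1) (hd : 0 ≤ d) (hdM : d ≤ M) (hR : 1 ≤ R) (hB : R ≤ B)
    (hB2 : B ≤ 2) :
    0 ≤ -(F * d + -(4 * d * F) * P / 2) / B - F * P ^ 2 / B ^ 2
    - F * P / (R * B) + 4 / B ^ 2 - 2 * R ^ 2 / B ^ 4 := by
  have hR0 : 0 < R := by linarith
  have hB0 : 0 < B := by linarith
  have hB1 : 1 ≤ B := by linarith
  have h0 := algC hR0 hB
  have h1 : 1 / 2 ≤ 2 / B ^ 2 := by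
    rw [div_le_div_iff₀ (by norm_num) (by positivity)]
    nlinarith
  have ha0 : 0 < a := by linarith
  have h2 : -(F * d + -(4 * d * F) * P / 2) / B ≥ -(a * M) := by
    have h3 : -(F * d + -(4 * d * F) * P / 2) / B = -(F * d) / B + 2 * (d * F * P) / B := by
      ring
    have h4 : 0 ≤ 2 * (d * F * P) / B := by positivity
    have h5 : F * d / B ≤ a * M := by
      rw [div_le_iff₀ hB0]
      have h6 : F * d ≤ a * M := mul_le_mul hFa hdM hd ha0.le
      have h7 : 0 ≤ a * M := by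
        have : 0 ≤ M := by linarith
        positivity
      nlinarith
    rw [h3, neg_div]
    linarith
  have h3 : F * P ^ 2 / B ^ 2 ≤ a := by
    rw [div_le_iff₀ (by positivity)]
    have h7 : P ^ 2 ≤ 1 := by nlinarith
    have h6 : F * P ^ 2 ≤ a * 1 := mul_le_mul hFa h7 (by positivity) ha0.le
    have h8 : 1 ≤ B ^ 2 := by nlinarith
    have h9 : a * 1 ≤ a * B ^ 2 := mul_le_mul_of_nonneg_left h8 ha0.le
    linarith
  have h4 : F * P / (R * B) ≤ a := by
    rw [div_le_iff₀ (by positivity)]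
    have h6 : F * P ≤ a := by nlinarith
    have h7 : 1 ≤ R * B := by nlinarith
    nlinarith
  linarith

theorem core : CoreStmt := by
  obtain ⟨M, hM0, hM⟩ := dPh_bound
  obtain ⟨a, ha0, ha1, ha2⟩ : ∃ a : ℝ, 0 < a ∧ a ≤ 1 / 16 ∧ a * (M + 2) ≤ 1 / 2 := by
    refine ⟨min (1 / 16) (1 / (2 * (M + 2))), by positivity, min_le_left _ _, ?_⟩
    have h1 : min (1 / 16) (1 / (2 * (M + 2))) ≤ 1 / (2 * (M + 2)) := min_le_right _ _
    calc min (1 / 16) (1 / (2 * (M + 2))) * (M + 2) ≤ 1 / (2 * (M + 2)) * (M + 2) := by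
          apply mul_le_mul_of_nonneg_right h1 (by linarith)
      _ = 1 / 2 := by field_simp
  have ha3 : a ≤ 1 := by linarith
  have hpos : ∀ R, 0 < FF a R := fun R =>
    mul_pos (lt_of_lt_of_le ha0 (f0_ge ha3 R)) (Real.exp_pos _)
  have hFle : ∀ R, FF a R ≤ 1 := fun R => by
    have h1 := f0_le ha3 R
    have h2 : Real.exp (-4 * Ph R) ≤ 1 := by
      rw [Real.exp_le_one_iff]
      linarith [Ph_nonneg R]
    have h3 := Real.exp_pos (-4 * Ph R)
    have h4 := lt_of_lt_of_le ha0 (f0_ge ha3 R)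
    unfold FF
    nlinarith
  have hFa : ∀ R, 1 / 2 ≤ R → FF a R ≤ a := fun R hR => by
    have h2 : Real.exp (-4 * Ph R) ≤ 1 := by
      rw [Real.exp_le_one_iff]
      linarith [Ph_nonneg R]
    unfold FF
    rw [f0_eq a hR]
    nlinarith
  have hFge : ∀ R, a * Real.exp (-4) ≤ FF a R := fun R => by
    have h2 : Real.exp (-4) ≤ Real.exp (-4 * Ph R) := by
      rw [Real.exp_le_exp]
      linarith [Ph_le R]
    unfold FF
    exact mul_le_mul (f0_ge ha3 R) h2 (Real.exp_pos _).le (by linarith [f0_ge ha3 R])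
  have hB1 : 1 ≤ BB 1 := BB_ge 1
  have hBp : ∀ R, 0 < BB R := fun R => by linarith [BB_one_le R]
  refine ⟨a * Real.exp (-4), BB 1, FF a, BB, by positivity, ?_, by linarith,
    BB_le (by norm_num), ⟨(FF_smooth a).contDiffOn, BB_smooth.contDiffOn,
      fun R _ => hpos R, fun R _ => hBp R⟩, fun R _ => ⟨hFge R, hFle R⟩,
    fun R _ => ⟨BB_one_le R, BB_ge R⟩, fun R _ h => BB_le h, ?_, ?_, ?_⟩
  · have h2 : Real.exp (-4) ≤ 1 := by
      rw [Real.exp_le_one_iff]
      norm_num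
    nlinarith [Real.exp_pos (-4)]
  · intro R _ hR
    refine ⟨?_, BB_const (by linarith)⟩
    unfold FF
    rw [f0_one a hR, Ph_zero (by linarith)]
    simp
  · intro R hR
    refine ⟨?_, BB_eq hR⟩
    unfold FF
    rw [f0_eq a (by linarith), Ph_one hR]
    simp
  · intro R hR
    have hBge := BB_ge R
    have hF0 := hpos R
    have hd := FF_deriv a R
    unfold ucA ucB ucC
    rw [BB_deriv]
    by_cases h1 : R ≤ 1
    · rw [dPh_zero h1] at hd ⊢
      rw [Ph_zero h1] at hd ⊢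
      have h2 : deriv (FF a) R ≤ 0 := by
        rw [hd]
        have := df0_nonpos ha3 R
        simpa using this
      have h3 : 0 ≤ -deriv (FF a) R / 2 / R := by
        apply div_nonneg _ hR.le
        linarith
      refine ⟨?_, ?_, ?_⟩
      · simpa using h3
      · have : 0 ≤ 2 * R ^ 2 / BB R ^ 4 := by positivity
        simp only [mul_zero, zero_div, sub_zero]
        linarith
      · have h4 := algC hR hBge
        have h5 : 0 ≤ 2 / BB R ^ 2 := by positivity
        have h6 : -(FF a R * 0 + deriv (FF a) R * 0 / 2) / BB R - FF a R * 0 ^ 2 / BB R ^ 2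
          - FF a R * 0 / (R * BB R) + 4 / BB R ^ 2 - 2 * R ^ 2 / BB R ^ 4 =
          4 / BB R ^ 2 - 2 * R ^ 2 / BB R ^ 4 := by ring
        rw [h6]
        linarith
    · have h1' : 1 ≤ R := le_of_lt (not_le.mp h1)
      rw [df0_zero ha3 (show 1 / 2 ≤ R by linarith), zero_mul, zero_sub] at hd
      rw [hd]
      by_cases h2 : R ≤ 2
      · exact ⟨alg2A hF0 (Ph_nonneg R) (dPh_nonneg R) h1' hBge,
          alg2B hF0 (hFa R (by linarith)) ha1 (Ph_le R) (dPh_nonneg R) h1' hBge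
            (BB_le h2),
          alg2C hF0 (hFa R (by linarith)) ha2 (Ph_nonneg R) (Ph_le R) (dPh_nonneg R) (hM R) h1'
            hBge (BB_le h2)⟩
      · have h2' : 2 ≤ R := le_of_lt (not_le.mp h2)
        rw [dPh_one h2', Ph_one h2', BB_eq h2']
        have h3 := hFle R
        have h4 : 0 ≤ (2 - 2 * FF a R) / R ^ 2 := by
          apply div_nonneg _ (by positivity)
          linarith
        refine ⟨by simp, ?_, ?_⟩
        · have e : -(-(4 * 0 * FF a R)) / 2 / R - 2 * FF a R * 1 / (R * R) + 2 * R ^ 2 / R ^ 4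
              = (2 - 2 * FF a R) / R ^ 2 := by
            field_simp
            ring
          rw [e]
          exact h4
        · have e : -(FF a R * 0 + -(4 * 0 * FF a R) * 1 / 2) / R - FF a R * 1 ^ 2 / R ^ 2
              - FF a R * 1 / (R * R) + 4 / R ^ 2 - 2 * R ^ 2 / R ^ 4
              = (2 - 2 * FF a R) / R ^ 2 := by
            field_simp
            ring
          rw [e]
          exact h4

end Pool.Agent.RLim.H20
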